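import Mathlib
import Pool.Agent.T9h19.Few

/-!
# Circuits with few wires of shared gates, up to easy gates and a few arbitrary gates

The circuits are those of `Pool.Agent.H540R2.Circuit`: AND and OR with fan-in 2, NOT with fan-in 1,
sources are variables and constants; `size` is the number of gates, `depth` the number of gates on
a longest path to the output.

Let `C` be a circuit of size `S ≥ 2`. Let `A` be a set of gates, each of which computes a function
that has *some* circuit of depth at most `l` (for example because it depends on few variables), let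
`W` be any set of gates, and let `κ` be the fan-out excess of the graph of the remaining gates,
`κ = ∑ (fan-out - 1)` over the gates outside `A ∪ W`, counting only wires into gates outside
`A ∪ W`. Then `C` has an equivalent circuit of depth at most `D` and size at most `2 ^ D`, where
`D = c (log S + l + |W| + κ / log κ)`.

Consequently the depth is at most `c log S` and the size at most `S ^ c` if `l = O(log S)`,
`|W| = O(log S)` and `κ = O(log S log log S)`.
-/

set_option autoImplicit false

namespace Pool.Agent.Results.MP_7713c5_lc.FewSharedWires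

open Finset Pool.Agent.H540R2 Pool.Agent.T9h19

/-- Every gate of `C` in `A` computes a function of the inputs which has a circuit of depth at
most `l`. -/
def Easy {n : ℕ} (C : Circuit n) (A : Finset ℕ) (l : ℕ) : Prop :=
  ∀ j ∈ A, j < C.size → ∃ E : Circuit n, E.depth ≤ l ∧ ∀ x, E.eval x = C.val x j

theorem result :
    (∃ c : ℕ, ∀ (n : ℕ) (C : Circuit n) (A W : Finset ℕ) (l D : ℕ), 2 ≤ C.size → Easy C A l →
      D = c * (Nat.log 2 C.size + l + W.card +
        excessDel C (A ∪ W) / (Nat.log 2 (excessDel C (A ∪ W)) + 1)) →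
      ∃ C' : Circuit n, C.Equiv C' ∧ C'.depth ≤ D ∧ C'.size ≤ 2 ^ D) ∧
    (∀ K : ℕ, ∃ c : ℕ, ∀ (n : ℕ) (C : Circuit n) (A W : Finset ℕ) (l : ℕ), 2 ≤ C.size →
      Easy C A l → l ≤ K * Nat.log 2 C.size → W.card ≤ K * Nat.log 2 C.size →
      excessDel C (A ∪ W) ≤ K * (Nat.log 2 C.size * (Nat.log 2 (Nat.log 2 C.size) + 1)) →
      ∃ C' : Circuit n, C.Equiv C' ∧ C'.depth ≤ c * Nat.log 2 C.size ∧ C'.size ≤ C.size ^ c) := by
  have main : ∀ (n : ℕ) (C : Circuit n) (A W : Finset ℕ) (l D : ℕ), 2 ≤ C.size → Easy C A l →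
      D = 2100 * (Nat.log 2 C.size + l + W.card +
        excessDel C (A ∪ W) / (Nat.log 2 (excessDel C (A ∪ W)) + 1)) →
      ∃ C' : Circuit n, C.Equiv C' ∧ C'.depth ≤ D ∧ C'.size ≤ 2 ^ D := by
    intro n C A W l D hS hA hD
    have h1 := few C A W l fun j hj hs => by
      obtain ⟨E, hE, he⟩ := hA j hj hs
      exact (Circuit.dp E hE).congr he
    obtain ⟨C', h2, h3, h4⟩ := h1.toCircuit
    have hL : 1 ≤ Nat.log 2 C.size := Nat.log_pos (by norm_num) hS
    set L := Nat.log 2 C.size
    set q := excessDel C (A ∪ W) / (Nat.log 2 (excessDel C (A ∪ W)) + 1)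
    have h5 : 3 * (l + L + 4) + 64 * (24 * q + 32) + 2 * (W.card + 1) + 1 ≤ D := by
      rw [hD]
      omega
    exact ⟨C', fun x => (h4 x).symm, h2.trans h5,
      h3.le.trans (Nat.pow_le_pow_right (by norm_num) h5)⟩
  refine ⟨⟨2100, main⟩, fun K => ⟨2100 * (2 + 3 * K), fun n C A W l hS hA hl hW hκ => ?_⟩⟩
  obtain ⟨C', h1, h2, h3⟩ := main n C A W l _ hS hA rfl
  have hL : 1 ≤ Nat.log 2 C.size := Nat.log_pos (by norm_num) hS
  have hS2 : 2 ^ Nat.log 2 C.size ≤ C.size := Nat.pow_log_le_self 2 (by omega)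
  set L := Nat.log 2 C.size
  set κ := excessDel C (A ∪ W)
  have hq : κ / (Nat.log 2 κ + 1) ≤ (K + 1) * L := by
    rcases le_total κ L with h | h
    · calc κ / (Nat.log 2 κ + 1) ≤ κ := Nat.div_le_self _ _
        _ ≤ L := h
        _ ≤ (K + 1) * L := Nat.le_mul_of_pos_left _ (by omega)
    · apply Nat.div_le_of_le_mul
      have h4 : Nat.log 2 L ≤ Nat.log 2 κ := Nat.log_mono_right h
      calc κ ≤ K * (L * (Nat.log 2 L + 1)) := hκ
        _ ≤ (K + 1) * (L * (Nat.log 2 κ + 1)) :=
          Nat.mul_le_mul (by omega) (Nat.mul_le_mul_left _ (by omega))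
        _ = (Nat.log 2 κ + 1) * ((K + 1) * L) := by ring
  have hD : 2100 * (L + l + W.card + κ / (Nat.log 2 κ + 1)) ≤ 2100 * (2 + 3 * K) * L := by
    have : L + l + W.card + κ / (Nat.log 2 κ + 1) ≤ (2 + 3 * K) * L := by
      have e : (2 + 3 * K) * L = L + K * L + K * L + (K + 1) * L := by ring
      omega
    calc 2100 * (L + l + W.card + κ / (Nat.log 2 κ + 1)) ≤ 2100 * ((2 + 3 * K) * L) :=
          Nat.mul_le_mul_left _ this
      _ = 2100 * (2 + 3 * K) * L := by ring
  refine ⟨C', h1, h2.trans hD, h3.trans ?_⟩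
  calc 2 ^ (2100 * (L + l + W.card + κ / (Nat.log 2 κ + 1)))
      ≤ 2 ^ (2100 * (2 + 3 * K) * L) := Nat.pow_le_pow_right (by norm_num) hD
    _ = (2 ^ L) ^ (2100 * (2 + 3 * K)) := by rw [← pow_mul, mul_comm]
    _ ≤ C.size ^ (2100 * (2 + 3 * K)) := Nat.pow_le_pow_left hS2 _

end Pool.Agent.Results.MP_7713c5_lc.FewSharedWires
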