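import Pool.Agent.T9h19.RM.NotsU
import Pool.Agent.T9h19.RM.Fin

/-!
# NOT gates of circuits of small depth for functions with small monotone circuits
-/

set_option autoImplicit false

namespace Pool.Agent.Results.MP_7713c5_lc.NotGatesPolylog

open Finset Pool.Agent.H540R2 Pool.Agent.T9h19.RM

/-- There is a constant `K` such that for every `S ≥ 2` there is a monotone circuit `C` of size at
most `S` with the following properties.

(1) For each set `U` of variables, each `d` and each `e ≥ 1` there is a finite list of inputs, which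
are equal outside `U`, such that each circuit `D` of depth at most `d` agrees with `C` on at most a
fraction `1 / 2 + 1 / e + Q / |U|` of them, where `Q` is `(K (d + e + log S)) ^ K` times the product
over all levels `l` of one plus the number of NOT gates of `D` above `U` at level `l` (for each
assignment of levels).

(2) If `D` is equivalent to `C`, then for each set `U` of variables at least
`log |U| - K log (K (depth D + log S))` NOT gates of `D` are above `U`.

(3) If `D` is equivalent to `C`, then `D` has at least `log S - K log (K (depth D + log S))` NOT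
gates. -/
theorem result : ∃ K : ℕ, ∀ S : ℕ, 2 ≤ S → ∃ (n : ℕ) (C : Circuit n), C.Monotone ∧
    C.size ≤ S ∧ n ≤ 4 * S ∧
    (∀ (U : Finset (Fin n)) (d e : ℕ), 1 ≤ e → ∃ (N : ℕ) (X : Fin N → (Fin n → Bool)), 0 < N ∧
      (∀ i j, ∀ k, k ∉ U → X i k = X j k) ∧
      ∀ D : Circuit n, D.depth ≤ d → ∀ (lev : ℕ → ℕ) (r : ℕ), NotLevels D U lev r →
        (U.card : ℝ) * (agree X (fun x => D.eval x) (fun x => C.eval x) - 1 / 2 - 1 / e) ≤
          ((K * (d + e + Nat.log 2 S)) ^ K : ℕ) *
            (∏ l ∈ range (r + 1), (notsAt D U lev l + 1) : ℕ)) ∧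
    ∀ D : Circuit n, C.Equiv D →
      (∀ U : Finset (Fin n),
        U.card ≤ (K * (D.depth + Nat.log 2 S)) ^ K * 2 ^ notsAbove D U) ∧
      S ≤ (K * (D.depth + Nat.log 2 S)) ^ K * 2 ^ D.nots := by
  classical
  refine ⟨220, fun S hS => ?_⟩
  obtain ⟨n, C, c1, c2, c3, c4, c5⟩ := exists_hardA S hS
  have hL : 1 ≤ Nat.log 2 S := Nat.log_pos (by norm_num) hS
  refine ⟨n, C, c1, c2, c3, ?_, ?_⟩
  · intro U d e he
    obtain ⟨α, N, X, hN, hX, h⟩ := c5.notLevels hS c3 U d e he
    refine ⟨N, X, hN, fun i j k hk => (hX i k hk).trans (hX j k hk).symm,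
      fun D hd lev r hlev => (h D hd lev r hlev).trans ?_⟩
    apply mul_le_mul_of_nonneg_right _ (Nat.cast_nonneg _)
    exact_mod_cast avg_num
  · intro D hD
    have key : ∀ U : Finset (Fin n), U.card ≤
        6 * (175 * (D.depth + 3 + Nat.log 2 S)) ^ 175 * 2 ^ notsAbove D U := by
      intro U
      obtain ⟨α, N, X, hN, hX, h⟩ := c5.notLevels hS c3 U D.depth 3 (by norm_num)
      obtain ⟨lev, r, h1, h2⟩ := exists_notLevels D U
      have hA : agree X (fun x => D.eval x) (fun x => C.eval x) = 1 := by
        unfold agree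
        have h3 : (univ.filter (fun i => D.eval (X i) = C.eval (X i))) = univ := by
          rw [filter_eq_self]
          intro i _
          exact (hD _).symm
        rw [h3, card_univ, Fintype.card_fin]
        have : (N : ℝ) ≠ 0 := by exact_mod_cast hN.ne'
        exact div_self this
      exact (worst hA (h D le_rfl lev r h1)).trans (Nat.mul_le_mul_left _ h2)
    refine ⟨fun U => worst_num hL (key U), ?_⟩
    have h1 := key univ
    rw [card_univ, Fintype.card_fin] at h1
    refine worst_num_S hL Nat.one_le_two_pow c4 (h1.trans (Nat.mul_le_mul_left _ ?_))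
    apply Nat.pow_le_pow_right (by norm_num)
    unfold notsAbove Circuit.nots
    apply card_le_card
    intro i hi
    obtain ⟨h1, h2, _⟩ := mem_filter.mp hi
    exact mem_filter.mpr ⟨h1, h2⟩

end Pool.Agent.Results.MP_7713c5_lc.NotGatesPolylog
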