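import Pool.Agent.T9h19.RM.WMain

/-!
# One-sided approximation and nondeterministic simulation in small depth without NOT gates
-/

set_option autoImplicit false

namespace Pool.Agent.Results.MP_7713c5_lc.OneSidedApproximation

open Finset Pool.Agent.H540R2 Pool.Agent.T9h19.RM

/-- There is a constant `K` such that for all `S, d ≥ 1` there are `M ≥ S / (K d) ^ K - 1` and a
monotone circuit `C` of size at most `S` and depth at most `K (d log d + d + log S)` with the
following properties.

(1) There is a finite list of inputs rejected by `C` such that each monotone circuit of depth at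
most `d` (and any size) which accepts all inputs accepted by `C` rejects at most a fraction
`2 ^ (-M)` of them.

(2) There is a finite list of inputs accepted by `C` such that each monotone circuit of depth at
most `d` (and any size) which rejects all inputs rejected by `C` accepts at most a fraction
`2 ^ (-M)` of them.

(3) If `C` computes the disjunction, or the conjunction, of the functions computed by monotone
circuits `D w` of depth at most `d`, for `w` in a finite set `W`, then `|W| ≥ 2 ^ M`. -/
theorem result : ∃ K : ℕ, ∀ S d : ℕ, 1 ≤ S → 1 ≤ d → ∃ (n : ℕ) (C : Circuit n) (M : ℕ),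
    C.Monotone ∧ C.size ≤ S ∧ n ≤ 4 * S ∧
    C.depth ≤ K * (d * (Nat.log 2 d + 1) + Nat.log 2 S) ∧ S ≤ (K * d) ^ K * (M + 1) ∧
    (∃ (N : ℕ) (X : Fin N → (Fin n → Bool)), 0 < N ∧ (∀ i, C.eval (X i) = false) ∧
      ∀ D : Circuit n, D.Monotone → D.depth ≤ d → (∀ x, C.eval x = true → D.eval x = true) →
        2 ^ M * (univ.filter (fun i => D.eval (X i) = false)).card ≤ N) ∧
    (∃ (N : ℕ) (X : Fin N → (Fin n → Bool)), 0 < N ∧ (∀ i, C.eval (X i) = true) ∧
      ∀ D : Circuit n, D.Monotone → D.depth ≤ d → (∀ x, D.eval x = true → C.eval x = true) →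
        2 ^ M * (univ.filter (fun i => D.eval (X i) = true)).card ≤ N) ∧
    ∀ (W : Type) [Fintype W] (D : W → Circuit n), (∀ w, (D w).Monotone ∧ (D w).depth ≤ d) →
      ((∀ x, C.eval x = true ↔ ∃ w, (D w).eval x = true) ∨
        (∀ x, C.eval x = true ↔ ∀ w, (D w).eval x = true)) → 2 ^ M ≤ Fintype.card W := by
  classical
  refine ⟨3000, fun S d hS hd => ?_⟩
  obtain ⟨n, C, M, h1, h2, h3, h4, h5, h6, h7⟩ := one_sided S d hS hd
  refine ⟨n, C, M, h1, h2, h3, h4, h5.trans (Nat.mul_le_mul_right _ ?_), h6, h7, ?_⟩
  · calc (60 * d) ^ 60 ≤ (3000 * d) ^ 60 :=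
          Nat.pow_le_pow_left (Nat.mul_le_mul_right _ (by norm_num)) _
      _ ≤ _ := Nat.pow_le_pow_right (by omega) (by norm_num)
  · intro W _ D hD hE
    rcases hE with hE | hE
    · obtain ⟨N, X, hN, hX, hh⟩ := h7
      refine count_cover hN (fun w i => (D w).eval (X i) = true) (fun i => (hE _).mp (hX i))
        (fun w => hh (D w) (hD w).1 (hD w).2 fun x hx => (hE x).mpr ⟨w, hx⟩)
    · obtain ⟨N, X, hN, hX, hh⟩ := h6
      refine count_cover hN (fun w i => (D w).eval (X i) = false) (fun i => ?_)
        (fun w => hh (D w) (hD w).1 (hD w).2 fun x hx => (hE x).mp hx w)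
      by_contra hc
      push Not at hc
      have h8 := (hE (X i)).mpr fun w => by
        have := hc w
        simpa using this
      rw [hX i] at h8
      exact absurd h8 (by simp)

end Pool.Agent.Results.MP_7713c5_lc.OneSidedApproximation
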