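import Pool.Agent.T9h19.BP.Base

/-!
# MP_b7335c_lc: two adaptive bitprobes need fewer than `m^(2/3)` bits for sets of size two

The conjecture `s_A(2, m, 2) = Ω(m^(2/3))` is false: `s_A(2, m, 2) ≤ 2430 m^(65/98)`.

Author: helper19.
-/

set_option autoImplicit false

namespace Pool.Agent.Results.MP_b7335c_lc.SpacePowerSaving

open Pool.Agent.T9h19.BP

theorem key : (810 : ℝ) ≤ (24300 : ℝ) ^ ((65 : ℝ) / 98) := by
  have h1 : ((810 : ℝ) ^ 98) ≤ (24300 : ℝ) ^ 65 := by norm_num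
  have h2 : ((810 : ℝ) ^ 98) ^ (((98 : ℕ) : ℝ)⁻¹) ≤ ((24300 : ℝ) ^ 65) ^ (((98 : ℕ) : ℝ)⁻¹) :=
    Real.rpow_le_rpow (by positivity) h1 (by positivity)
  rw [Real.pow_rpow_inv_natCast (by norm_num) (by norm_num)] at h2
  refine h2.trans (le_of_eq ?_)
  rw [← Real.rpow_natCast, ← Real.rpow_mul (by norm_num)]
  congr 1

theorem upper (m : ℕ) (hm : 1 ≤ m) : ∃ (a b c : ℕ) (σ : Scheme m a b c), σ.Correct 2 ∧
    ((a + b + c : ℕ) : ℝ) ≤ 2430 * (m : ℝ) ^ ((65 : ℝ) / 98) := by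
  set n := Nat.clog 24300 m with hn
  obtain ⟨σ, hσ⟩ := exists_scheme n m (Nat.le_pow_clog (by norm_num) m)
  refine ⟨_, _, _, σ, hσ, ?_⟩
  have hm1 : (1 : ℝ) ≤ (m : ℝ) := by exact_mod_cast hm
  have he : (1 : ℝ) ≤ (m : ℝ) ^ ((65 : ℝ) / 98) := Real.one_le_rpow hm1 (by positivity)
  rcases Nat.eq_zero_or_pos n with h0 | h0
  · rw [h0]
    norm_num
    linarith
  · have hm2 : 1 < m := by
      by_contra hcon
      have : m = 1 := by omega
      rw [hn, this, Nat.clog_one_right] at h0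
      exact lt_irrefl _ h0
    have h1 : 24300 ^ (n - 1) < m := by
      have := Nat.pow_pred_clog_lt_self (by norm_num : 1 < 24300) hm2
      simpa [hn] using this
    have h2 : (((24300 : ℕ) ^ (n - 1) : ℕ) : ℝ) ≤ (m : ℝ) := by exact_mod_cast h1.le
    have h3 : ((810 : ℝ)) ^ (n - 1) ≤ (m : ℝ) ^ ((65 : ℝ) / 98) := by
      calc ((810 : ℝ)) ^ (n - 1) ≤ ((24300 : ℝ) ^ ((65 : ℝ) / 98)) ^ (n - 1) :=
            pow_le_pow_left₀ (by norm_num) key _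
        _ = ((24300 : ℝ) ^ (n - 1)) ^ ((65 : ℝ) / 98) := by
            rw [← Real.rpow_natCast, ← Real.rpow_mul (by norm_num), mul_comm,
              Real.rpow_mul (by norm_num), Real.rpow_natCast]
        _ ≤ (m : ℝ) ^ ((65 : ℝ) / 98) := by
            refine Real.rpow_le_rpow (by positivity) ?_ (by positivity)
            push_cast at h2
            exact h2
    have h4 : (810 : ℝ) ^ n = 810 * (810 : ℝ) ^ (n - 1) := by
      obtain ⟨k, hk⟩ : ∃ k, n = k + 1 := ⟨n - 1, by omega⟩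
      rw [hk, Nat.add_sub_cancel, pow_succ]; ring
    push_cast
    rw [h4]
    linarith

/-- **The space of two adaptive bitprobes for sets of at most two elements.** -/
theorem result :
    (∀ m : ℕ, 1 ≤ m → ∃ (a b c : ℕ) (σ : Scheme m a b c), σ.Correct 2 ∧
      ((a + b + c : ℕ) : ℝ) ≤ 2430 * (m : ℝ) ^ ((65 : ℝ) / 98)) ∧
    (∀ δ : ℝ, 0 < δ → ∃ M : ℕ, ∀ m : ℕ, M ≤ m → (space 2 m : ℝ) < δ * (m : ℝ) ^ ((2 : ℝ) / 3)) ∧
    ¬ ∃ δ : ℝ, 0 < δ ∧ ∃ M : ℕ, ∀ m : ℕ, M ≤ m → δ * (m : ℝ) ^ ((2 : ℝ) / 3) ≤ (space 2 m : ℝ) := by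
  have h2 : ∀ δ : ℝ, 0 < δ → ∃ M : ℕ, ∀ m : ℕ, M ≤ m →
      (space 2 m : ℝ) < δ * (m : ℝ) ^ ((2 : ℝ) / 3) := by
    intro δ hδ
    have ht : Filter.Tendsto (fun m : ℕ => (m : ℝ) ^ ((2 : ℝ) / 3 - 65 / 98)) Filter.atTop
        Filter.atTop :=
      (tendsto_rpow_atTop (by norm_num)).comp tendsto_natCast_atTop_atTop
    obtain ⟨M, hM⟩ := Filter.eventually_atTop.mp (ht.eventually_gt_atTop (2430 / δ))
    refine ⟨max M 1, fun m hm => ?_⟩
    have hm1 : 1 ≤ m := le_trans (le_max_right _ _) hm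
    obtain ⟨a, b, c, σ, hσ, hb⟩ := upper m hm1
    have h3 : space 2 m ≤ a + b + c := Nat.sInf_le ⟨a, b, c, rfl, σ, hσ⟩
    have h4 : (space 2 m : ℝ) ≤ ((a + b + c : ℕ) : ℝ) := by exact_mod_cast h3
    have h5 := hM m (le_trans (le_max_left _ _) hm)
    have hmp : (0 : ℝ) < m := by exact_mod_cast hm1
    have h6 : (0 : ℝ) < (m : ℝ) ^ ((65 : ℝ) / 98) := Real.rpow_pos_of_pos hmp _
    calc (space 2 m : ℝ) ≤ 2430 * (m : ℝ) ^ ((65 : ℝ) / 98) := h4.trans hb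
      _ = δ * (2430 / δ * (m : ℝ) ^ ((65 : ℝ) / 98)) := by field_simp
      _ < δ * ((m : ℝ) ^ ((2 : ℝ) / 3 - 65 / 98) * (m : ℝ) ^ ((65 : ℝ) / 98)) := by
          exact mul_lt_mul_of_pos_left (mul_lt_mul_of_pos_right h5 h6) hδ
      _ = δ * (m : ℝ) ^ ((2 : ℝ) / 3) := by
          rw [← Real.rpow_add hmp]
          congr 2
          ring
  refine ⟨upper, h2, ?_⟩
  rintro ⟨δ, hδ, M, hM⟩
  obtain ⟨M', hM'⟩ := h2 δ hδ
  have h3 := hM (max M M') (le_max_left _ _)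
  have h4 := hM' (max M M') (le_max_right _ _)
  linarith

end Pool.Agent.Results.MP_b7335c_lc.SpacePowerSaving
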